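import Mathlib

/-!
# Lipschitz homeomorphisms of nonseparable Hilbert spaces need not be Gateaux differentiable anywhere

In coordinates with respect to an orthonormal basis the map is `x ↦ x + ε x⁺`. Every vector of a
nonseparable Hilbert space has a vanishing coordinate, and in the direction of such a coordinate the
two one-sided derivatives of the map differ.
-/

set_option autoImplicit false

open Filter Topology Set TopologicalSpace
open scoped ENNReal NNReal

namespace Pool.Agent.Results.MP_714461_an.NowhereGateaux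

/-- The map `φ : X → Y` is Gateaux differentiable at `x₀`: there is a bounded linear operator
`T : X → Y` with `lim_{t → 0} (φ (x₀ + t h) - φ x₀) / t = T h` in norm for every `h`. -/
def GateauxDifferentiableAt {X Y : Type} [NormedAddCommGroup X] [NormedSpace ℝ X]
    [NormedAddCommGroup Y] [NormedSpace ℝ Y] (φ : X → Y) (x₀ : X) : Prop :=
  ∃ T : X →L[ℝ] Y, ∀ h : X,
    Tendsto (fun t : ℝ => t⁻¹ • (φ (x₀ + t • h) - φ x₀)) (𝓝[≠] 0) (𝓝 (T h))

/-- the real function `s ↦ s + ε s⁺` -/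
noncomputable def g (ε s : ℝ) : ℝ := s + ε * max s 0

/-- its inverse `s ↦ s - (ε / (1 + ε)) s⁺` -/
noncomputable def k (ε s : ℝ) : ℝ := s - ε / (1 + ε) * max s 0

lemma g_lip {ε : ℝ} (hε : 0 < ε) (a b : ℝ) : |g ε a - g ε b| ≤ (1 + ε) * |a - b| := by
  have h1 : |max a 0 - max b 0| ≤ |a - b| := abs_max_sub_max_le_abs a b 0
  calc |g ε a - g ε b| = |(a - b) + ε * (max a 0 - max b 0)| := by unfold g; congr 1; ring
    _ ≤ |a - b| + |ε * (max a 0 - max b 0)| := abs_add_le _ _
    _ = |a - b| + ε * |max a 0 - max b 0| := by rw [abs_mul, abs_of_pos hε]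
    _ ≤ |a - b| + ε * |a - b| := by gcongr
    _ = (1 + ε) * |a - b| := by ring

lemma k_g {ε : ℝ} (hε : 0 < ε) (s : ℝ) : k ε (g ε s) = s := by
  unfold k g
  rcases le_total s 0 with h | h
  · rw [max_eq_right h]; simp [h]
  · rw [max_eq_left h, max_eq_left (by positivity)]
    field_simp
    ring

lemma g_k {ε : ℝ} (hε : 0 < ε) (s : ℝ) : g ε (k ε s) = s := by
  unfold k g
  rcases le_total s 0 with h | h
  · rw [max_eq_right h]; simp [h]
  · rw [max_eq_left h]
    have h2 : s - ε / (1 + ε) * s = s / (1 + ε) := by field_simp; ring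
    rw [h2, max_eq_left (by positivity)]
    field_simp

lemma k_lip {ε : ℝ} (hε : 0 < ε) (a b : ℝ) : |k ε a - k ε b| ≤ |a - b| := by
  -- `g` is expanding and increasing
  have key : ∀ a b : ℝ, |a - b| ≤ |g ε a - g ε b| := by
    intro a b
    wlog hab : b ≤ a generalizing a b
    · rw [abs_sub_comm a b, abs_sub_comm (g ε a)]
      exact this b a (le_of_not_ge hab)
    have h1 : max b 0 ≤ max a 0 := max_le_max hab le_rfl
    have h2 : a - b ≤ g ε a - g ε b := by
      unfold g
      nlinarith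
    rw [abs_of_nonneg (by linarith), abs_of_nonneg (by linarith)]
    exact h2
  have := key (k ε a) (k ε b)
  rwa [g_k hε, g_k hε] at this

/-- the Hilbert space `ℓ_2(ι)` -/
abbrev L2 (ι : Type) : Type := lp (fun _ : ι => ℝ) 2

section

variable {ι : Type}

lemma mem_g {ε : ℝ} (hε : 0 < ε) (x : L2 ι) : Memℓp (fun i => g ε (x i)) 2 := by
  refine Memℓp.mono' (F := fun _ : ι => ℝ) (p := 2) (lp.memℓp ((1 + ε) • x)) (fun i => ?_)
  have h := g_lip hε (x i) 0
  have h0 : g ε 0 = 0 := by simp [g]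
  rw [h0, sub_zero, sub_zero] at h
  rw [Real.norm_eq_abs, lp.coeFn_smul, Pi.smul_apply, smul_eq_mul, norm_mul, Real.norm_eq_abs,
    Real.norm_eq_abs, abs_of_pos (by linarith : (0:ℝ) < 1 + ε)]
  exact h

lemma mem_k {ε : ℝ} (hε : 0 < ε) (x : L2 ι) : Memℓp (fun i => k ε (x i)) 2 := by
  refine Memℓp.mono' (F := fun _ : ι => ℝ) (p := 2) (lp.memℓp x) (fun i => ?_)
  have h := k_lip hε (x i) 0
  have h0 : k ε 0 = 0 := by simp [k]
  rw [h0, sub_zero, sub_zero] at h
  exact h

/-- the homeomorphism of `ℓ_2(ι)` -/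
noncomputable def φ {ε : ℝ} (hε : 0 < ε) : L2 ι ≃ L2 ι where
  toFun x := ⟨fun i => g ε (x i), mem_g hε x⟩
  invFun x := ⟨fun i => k ε (x i), mem_k hε x⟩
  left_inv x := by
    ext i
    exact k_g hε (x i)
  right_inv x := by
    ext i
    exact g_k hε (x i)

lemma φ_apply {ε : ℝ} (hε : 0 < ε) (x : L2 ι) (i : ι) : φ hε x i = g ε (x i) := rfl

lemma φ_symm_apply {ε : ℝ} (hε : 0 < ε) (x : L2 ι) (i : ι) : (φ hε).symm x i = k ε (x i) := rfl

lemma φ_norm {ε : ℝ} (hε : 0 < ε) (x y : L2 ι) : ‖φ hε x - φ hε y‖ ≤ (1 + ε) * ‖x - y‖ := by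
  have h1 : ‖φ hε x - φ hε y‖ ≤ ‖(1 + ε) • (x - y)‖ := by
    refine lp.norm_mono (by norm_num) (fun i => ?_)
    rw [lp.coeFn_sub, Pi.sub_apply, φ_apply, φ_apply, lp.coeFn_smul, Pi.smul_apply, lp.coeFn_sub,
      Pi.sub_apply, smul_eq_mul, norm_mul, Real.norm_eq_abs, Real.norm_eq_abs, Real.norm_eq_abs,
      abs_of_pos (by linarith : (0:ℝ) < 1 + ε)]
    exact g_lip hε _ _
  rwa [norm_smul, Real.norm_eq_abs, abs_of_pos (by linarith : (0:ℝ) < 1 + ε)] at h1

lemma φ_symm_norm {ε : ℝ} (hε : 0 < ε) (x y : L2 ι) :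
    ‖(φ hε).symm x - (φ hε).symm y‖ ≤ ‖x - y‖ := by
  refine lp.norm_mono (by norm_num) (fun i => ?_)
  rw [lp.coeFn_sub, Pi.sub_apply, φ_symm_apply, φ_symm_apply, lp.coeFn_sub, Pi.sub_apply]
  exact k_lip hε _ _

/-- vectors of `ℓ_2(ι)`, `ι` uncountable, have vanishing coordinates -/
lemma exists_zero_coord (hι : ¬ Countable ι) (x : L2 ι) : ∃ i, x i = 0 := by
  by_contra hcon
  push Not at hcon
  apply hι
  have hs : Summable fun i => ‖x i‖ ^ (2 : ℝ≥0∞).toReal := (lp.memℓp x).summable (by norm_num)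
  have h1 := hs.countable_support
  have h2 : Function.support (fun i => ‖x i‖ ^ (2 : ℝ≥0∞).toReal) = univ := by
    ext i
    simp only [Function.mem_support, mem_univ, iff_true]
    exact (Real.rpow_pos_of_pos (norm_pos_iff.2 (hcon i)) _).ne'
  rw [h2] at h1
  exact countable_univ_iff.1 h1

/-- the nondifferentiability, at every point, along a coordinate direction -/
lemma φ_not_diff {ε : ℝ} (hε : 0 < ε) (hι : ¬ Countable ι) (x : L2 ι) :
    ¬ GateauxDifferentiableAt (φ hε : L2 ι → L2 ι) x := by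
  classical
  rintro ⟨T, hT⟩
  obtain ⟨i, hi⟩ := exists_zero_coord hι x
  have h1 := hT (lp.single 2 i (1 : ℝ))
  have hc : Continuous (fun y : L2 ι => y i) := by
    have hL : LipschitzWith 1 (fun y : L2 ι => y i) := by
      refine LipschitzWith.of_dist_le_mul fun y z => ?_
      rw [NNReal.coe_one, one_mul, dist_eq_norm, dist_eq_norm, ← Pi.sub_apply, ← lp.coeFn_sub]
      exact lp.norm_apply_le_norm (by norm_num) (y - z) i
    exact hL.continuous
  have h2 : Tendsto (fun t : ℝ => (t⁻¹ • (φ hε (x + t • lp.single 2 i (1 : ℝ)) - φ hε x) : L2 ι) i)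
      (𝓝[≠] 0) (𝓝 (T (lp.single 2 i (1 : ℝ)) i)) := (hc.tendsto _).comp h1
  have h3 : ∀ t : ℝ, (t⁻¹ • (φ hε (x + t • lp.single 2 i (1 : ℝ)) - φ hε x) : L2 ι) i
      = t⁻¹ * g ε t := by
    intro t
    rw [lp.coeFn_smul, Pi.smul_apply, lp.coeFn_sub, Pi.sub_apply, φ_apply, φ_apply, lp.coeFn_add,
      Pi.add_apply, lp.coeFn_smul, Pi.smul_apply, hi, lp.single_apply_self]
    simp [g]
  simp_rw [h3] at h2
  have h4 : Tendsto (fun t : ℝ => t⁻¹ * g ε t) (𝓝[>] 0) (𝓝 (1 + ε)) := by
    refine tendsto_const_nhds.congr' ?_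
    filter_upwards [self_mem_nhdsWithin] with t ht
    have ht' : (0:ℝ) < t := ht
    unfold g
    rw [max_eq_left ht'.le]
    field_simp
  have h5 : Tendsto (fun t : ℝ => t⁻¹ * g ε t) (𝓝[<] 0) (𝓝 1) := by
    refine tendsto_const_nhds.congr' ?_
    filter_upwards [self_mem_nhdsWithin] with t ht
    have ht' : t < 0 := ht
    unfold g
    rw [max_eq_right ht'.le]
    field_simp [ht'.ne]
    ring
  have h6 := tendsto_nhds_unique h4
    (h2.mono_left (nhdsWithin_mono _ (fun t ht => ne_of_gt ht)))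
  have h7 := tendsto_nhds_unique h5
    (h2.mono_left (nhdsWithin_mono _ (fun t ht => ne_of_lt ht)))
  linarith

end

/-- every nonseparable Hilbert space has the required homeomorphisms -/
lemma main (H : Type) [NormedAddCommGroup H] [InnerProductSpace ℝ H] [CompleteSpace H]
    (hH : ¬ SeparableSpace H) (ε : ℝ≥0) (hε : 0 < ε) :
    ∃ ψ : H ≃ H, LipschitzWith (1 + ε) ψ ∧ LipschitzWith 1 ψ.symm ∧
      ∀ x₀ : H, ¬ GateauxDifferentiableAt ψ x₀ := by
  obtain ⟨w, b, hb⟩ := exists_hilbertBasis ℝ H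
  have hw : ¬ Countable w := by
    intro hc
    apply hH
    have h1 : IsSeparable (range b) := (countable_range b).isSeparable
    have h2 : IsSeparable ((Submodule.span ℝ (range b)).topologicalClosure : Set H) := by
      rw [Submodule.topologicalClosure_coe]
      exact (h1.span (R := ℝ)).closure
    rw [b.dense_span] at h2
    exact isSeparable_univ_iff.1 h2
  have hε' : (0:ℝ) < (ε : ℝ) := hε
  let e : H ≃ₗᵢ[ℝ] L2 w := b.repr
  refine ⟨(e.toEquiv.trans (φ hε')).trans e.symm.toEquiv, ?_, ?_, ?_⟩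
  · refine LipschitzWith.of_dist_le_mul fun x y => ?_
    show dist (e.symm (φ hε' (e x))) (e.symm (φ hε' (e y))) ≤ _
    rw [e.symm.dist_map, dist_eq_norm, dist_eq_norm]
    refine (φ_norm hε' _ _).trans ?_
    rw [← map_sub, e.norm_map]
    simp
  · refine LipschitzWith.of_dist_le_mul fun x y => ?_
    show dist (e.symm ((φ hε').symm (e x))) (e.symm ((φ hε').symm (e y))) ≤ _
    rw [e.symm.dist_map, dist_eq_norm, dist_eq_norm]
    refine (φ_symm_norm hε' _ _).trans ?_
    rw [← map_sub, e.norm_map]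
    simp
  · rintro x₀ ⟨T, hT⟩
    refine φ_not_diff hε' hw (e x₀) ⟨(e : H →L[ℝ] L2 w).comp (T.comp (e.symm : L2 w →L[ℝ] H)),
      fun h => ?_⟩
    have h1 := (e.continuous.tendsto _).comp (hT (e.symm h))
    refine h1.congr fun t => ?_
    show e (t⁻¹ • (e.symm (φ hε' (e (x₀ + t • e.symm h))) - e.symm (φ hε' (e x₀)))) = _
    rw [map_smul, map_sub, e.apply_symm_apply, e.apply_symm_apply, map_add, map_smul,
      e.apply_symm_apply]

/-- `ℓ_2(ℝ)` is not separable -/
lemma not_sep : ¬ SeparableSpace (L2 ℝ) := by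
  intro hs
  have hc : (univ : Set ℝ).Countable := by
    classical
    refine Set.PairwiseDisjoint.countable_of_isOpen (s := fun r : ℝ =>
      Metric.ball (lp.single (E := fun _ : ℝ => ℝ) 2 r (1:ℝ)) (1 / 2)) ?_ (fun r _ => Metric.isOpen_ball)
      (fun r _ => ⟨_, Metric.mem_ball_self (by norm_num)⟩)
    intro r _ s _ hrs
    refine Metric.ball_disjoint_ball ?_
    have h1 : ‖(lp.single (E := fun _ : ℝ => ℝ) 2 r (1:ℝ) -
        lp.single (E := fun _ : ℝ => ℝ) 2 s (1:ℝ) : L2 ℝ) r‖ ≤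
        ‖(lp.single (E := fun _ : ℝ => ℝ) 2 r (1:ℝ) -
        lp.single (E := fun _ : ℝ => ℝ) 2 s (1:ℝ) : L2 ℝ)‖ :=
      lp.norm_apply_le_norm (by norm_num) _ r
    rw [lp.coeFn_sub, Pi.sub_apply, lp.single_apply_self,
      lp.single_apply_ne (E := fun _ : ℝ => ℝ) 2 s (1:ℝ) hrs, sub_zero, norm_one] at h1
    rw [dist_eq_norm]
    linarith
  exact not_countable (countable_univ_iff.1 hc)

/-- Let `H` be any nonseparable real Hilbert space (such spaces exist, and they are reflexive and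
uniformly convex, hence superreflexive). For every `ε > 0` there is a Lipschitz homeomorphism `φ` of
`H` onto `H`, with Lipschitz constant at most `1 + ε` and inverse of Lipschitz constant at most `1`,
which is Gateaux differentiable at no point of `H`. -/
theorem result :
    (∀ (H : Type) [NormedAddCommGroup H] [InnerProductSpace ℝ H] [CompleteSpace H],
      ¬ SeparableSpace H →
      Function.Surjective (NormedSpace.inclusionInDoubleDual ℝ H) ∧ UniformConvexSpace H ∧
      ∀ ε : ℝ≥0, 0 < ε → ∃ φ : H ≃ H, LipschitzWith (1 + ε) φ ∧ LipschitzWith 1 φ.symm ∧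
        ∀ x₀ : H, ¬ GateauxDifferentiableAt φ x₀) ∧
    ∃ (H : Type) (_ : NormedAddCommGroup H) (_ : InnerProductSpace ℝ H) (_ : CompleteSpace H),
      ¬ SeparableSpace H := by
  refine ⟨fun H _ _ _ hH => ⟨?_, inferInstance, main H hH⟩,
    L2 ℝ, inferInstance, inferInstance, inferInstance, not_sep⟩
  intro F
  -- Frechet-Riesz twice
  let D : H ≃ₗᵢ⋆[ℝ] StrongDual ℝ H := InnerProductSpace.toDual ℝ H
  let G : StrongDual ℝ H :=
    { toFun := fun x => F (D x)
      map_add' := fun x y => by rw [map_add, map_add]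
      map_smul' := fun c x => by
        rw [map_smulₛₗ]
        simp
      cont := F.continuous.comp D.continuous }
  refine ⟨D.symm G, ?_⟩
  ext f
  rw [NormedSpace.dual_def]
  obtain ⟨y, rfl⟩ := D.surjective f
  have h1 : F (D y) = G y := rfl
  rw [h1]
  have h2 : G = D (D.symm G) := (D.apply_symm_apply G).symm
  conv_rhs => rw [h2]
  rw [InnerProductSpace.toDual_apply_apply, InnerProductSpace.toDual_apply_apply, real_inner_comm]

end Pool.Agent.Results.MP_714461_an.NowhereGateaux
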